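import Pool.Agent.Q240.EX.Stm2

set_option autoImplicit false

/-!
# Project EX: smooth functions are dense in the form domain (`S_Den`)

Dilation, then convolution with a bump function.
-/

open Complex Filter Topology Set MeasureTheory
open scoped ComplexConjugate Convolution

namespace Pool.Agent.Q129.EX

open Pool.Agent.Y23

/-- convergence in the mean from pointwise convergence and convergence of the norms -/
lemma mean_conv (w : ℝ → ℝ) (hw : ∀ v, 0 ≤ w v) (F : ℕ → ℝ → ℂ) (G : ℝ → ℂ)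
    (hp : ∀ v, Tendsto (fun n => F n v) atTop (𝓝 (G v)))
    (hwc : Continuous w) (hFc : ∀ n, Continuous (F n)) (hGc : Continuous G)
    (hF : ∀ n, Integrable (fun v => w v * ‖F n v‖ ^ 2)) (hG : Integrable (fun v => w v * ‖G v‖ ^ 2))
    (hn : Tendsto (fun n => ∫ v, w v * ‖F n v‖ ^ 2) atTop (𝓝 (∫ v, w v * ‖G v‖ ^ 2))) :
    Tendsto (fun n => ∫ v, w v * ‖G v - F n v‖ ^ 2) atTop (𝓝 0) := by
  have hpar : ∀ n v, w v * ‖G v - F n v‖ ^ 2 =
      2 * (w v * ‖F n v‖ ^ 2) + 2 * (w v * ‖G v‖ ^ 2) - w v * ‖G v + F n v‖ ^ 2 := by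
    intro n v
    have h := parallelogram_law_with_norm ℝ (G v) (F n v)
    have h1 : ‖G v - F n v‖ ^ 2 = 2 * ‖F n v‖ ^ 2 + 2 * ‖G v‖ ^ 2 - ‖G v + F n v‖ ^ 2 := by
      nlinarith [h]
    rw [h1]
    ring
  have hP : ∀ n, Integrable (fun v => w v * ‖G v + F n v‖ ^ 2) := by
    intro n
    refine ((hF n).const_mul 2 |>.add (hG.const_mul 2)).mono'
      (hwc.mul ((hGc.add (hFc n)).norm.pow 2)).aestronglyMeasurable (Eventually.of_forall fun v => ?_)
    rw [Real.norm_eq_abs, abs_of_nonneg (mul_nonneg (hw v) (sq_nonneg _))]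
    have h1 := hpar n v
    have h2 : 0 ≤ w v * ‖G v - F n v‖ ^ 2 := mul_nonneg (hw v) (sq_nonneg _)
    simp only [Pi.add_apply]
    linarith
  have hD : ∀ n, ∫ v, w v * ‖G v - F n v‖ ^ 2 =
      2 * (∫ v, w v * ‖F n v‖ ^ 2) + 2 * (∫ v, w v * ‖G v‖ ^ 2) - ∫ v, w v * ‖G v + F n v‖ ^ 2 := by
    intro n
    have i1 : Integrable (fun v => 2 * (w v * ‖F n v‖ ^ 2) + 2 * (w v * ‖G v‖ ^ 2)) :=
      ((hF n).const_mul 2).add (hG.const_mul 2)
    rw [← integral_const_mul, ← integral_const_mul, ← integral_add ((hF n).const_mul 2) (hG.const_mul 2),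
      ← integral_sub i1 (hP n)]
    exact integral_congr_ae (Eventually.of_forall fun v => hpar n v)
  have hM : Tendsto (fun n => ∫ v, min (w v * ‖G v + F n v‖ ^ 2) (4 * (w v * ‖G v‖ ^ 2))) atTop
      (𝓝 (∫ v, 4 * (w v * ‖G v‖ ^ 2))) := by
    refine tendsto_integral_of_dominated_convergence (fun v => 4 * (w v * ‖G v‖ ^ 2)) (fun n => ?_)
      (hG.const_mul 4) (fun n => Eventually.of_forall fun v => ?_) (Eventually.of_forall fun v => ?_)
    · exact ((hwc.mul ((hGc.add (hFc n)).norm.pow 2)).min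
        (continuous_const.mul (hwc.mul (hGc.norm.pow 2)))).aestronglyMeasurable
    · have h1 : 0 ≤ w v * ‖G v + F n v‖ ^ 2 := mul_nonneg (hw v) (sq_nonneg _)
      have h2 : 0 ≤ 4 * (w v * ‖G v‖ ^ 2) := mul_nonneg (by norm_num) (mul_nonneg (hw v) (sq_nonneg _))
      rw [Real.norm_eq_abs, abs_of_nonneg (le_min h1 h2)]
      exact min_le_right _ _
    · have h1 : Tendsto (fun n => w v * ‖G v + F n v‖ ^ 2) atTop (𝓝 (w v * ‖G v + G v‖ ^ 2)) :=
        (((tendsto_const_nhds.add (hp v)).norm).pow 2).const_mul _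
      have h2 : w v * ‖G v + G v‖ ^ 2 = 4 * (w v * ‖G v‖ ^ 2) := by
        rw [← two_mul, norm_mul, Complex.norm_two]
        ring
      rw [h2] at h1
      have h3 := h1.min (tendsto_const_nhds (x := 4 * (w v * ‖G v‖ ^ 2)))
      rwa [min_self] at h3
  have hU : Tendsto (fun n => 2 * (∫ v, w v * ‖F n v‖ ^ 2) + 2 * (∫ v, w v * ‖G v‖ ^ 2) -
      ∫ v, min (w v * ‖G v + F n v‖ ^ 2) (4 * (w v * ‖G v‖ ^ 2))) atTop (𝓝 0) := by
    have h := ((hn.const_mul 2).add (tendsto_const_nhds (x := 2 * (∫ v, w v * ‖G v‖ ^ 2)))).sub hM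
    rw [integral_const_mul] at h
    have e : 2 * (∫ v, w v * ‖G v‖ ^ 2) + 2 * (∫ v, w v * ‖G v‖ ^ 2) - 4 * (∫ v, w v * ‖G v‖ ^ 2) = 0 := by ring
    rwa [e] at h
  refine squeeze_zero (fun n => integral_nonneg fun v => mul_nonneg (hw v) (sq_nonneg _)) (fun n => ?_) hU
  rw [hD n]
  have h1 : ∫ v, min (w v * ‖G v + F n v‖ ^ 2) (4 * (w v * ‖G v‖ ^ 2)) ≤ ∫ v, w v * ‖G v + F n v‖ ^ 2 := by
    refine integral_mono_of_nonneg (Eventually.of_forall fun v => ?_) (hP n) (Eventually.of_forall fun v => min_le_left _ _)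
    exact le_min (mul_nonneg (hw v) (sq_nonneg _)) (mul_nonneg (by norm_num) (mul_nonneg (hw v) (sq_nonneg _)))
  linarith

lemma TT_dil (f : ℝ → ℂ) {r : ℝ} (hr : 0 < r) (w : ℂ) : TT (fun x => f (x / r)) w = r * TT f (r * w) := by
  unfold TT
  have h := Measure.integral_comp_div (fun y : ℝ => f y * cexp (r * w * y)) r
  rw [abs_of_pos hr, Complex.real_smul] at h
  rw [← h]
  refine integral_congr_ae (Eventually.of_forall fun x => ?_)
  simp only
  congr 2
  have hr' : (r : ℂ) ≠ 0 := by exact_mod_cast hr.ne'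
  push_cast
  field_simp

lemma Fa_dil {a r : ℝ} (hr : 0 < r) {f : ℝ → ℂ} (hf : Fa a f) : Fa (r * a) (fun x => f (x / r)) := by
  have h1 : Integrable (fun x => f (x / r)) := hf.integrable.comp_div hr.ne'
  refine ⟨(memLp_two_iff_integrable_sq_norm h1.aestronglyMeasurable).2 (hf.sq_int.comp_div hr.ne'), fun x hx => hf.2 _ ?_⟩
  rw [abs_div, abs_of_pos hr, lt_div_iff₀ hr]
  linarith

lemma Lg_div_le {r : ℝ} (hr : 1 / 2 ≤ r) (u : ℝ) : Lg (u / r) ≤ 2 * Lg u := by
  unfold Lg
  have h0 : (0 : ℝ) < r := by linarith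
  have h1 : |u / r| ≤ 2 * |u| := by
    rw [abs_div, abs_of_pos h0, div_le_iff₀ h0]
    nlinarith [abs_nonneg u]
  have h2 := abs_nonneg u
  have h3 : 2 * Real.log (3 + |u|) = Real.log ((3 + |u|) ^ 2) := by rw [Real.log_pow]; norm_num
  rw [h3]
  refine Real.log_le_log (by positivity) ?_
  nlinarith

lemma int_div {r : ℝ} {a : ℝ} {f : ℝ → ℂ} (hr : 1 / 2 ≤ r) (hf : Hd a f) :
    Integrable (fun u : ℝ => Lg (u / r) * ‖TT f (u * I)‖ ^ 2) := by
  refine (hf.2.const_mul 2).mono' ?_ (Eventually.of_forall fun u => ?_)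
  · exact ((Lg_cont.comp (continuous_id.div_const r)).mul ((TT_line_cont hf.1).norm.pow 2)).aestronglyMeasurable
  · rw [Real.norm_eq_abs, abs_of_nonneg (mul_nonneg (Lg_pos _).le (sq_nonneg _))]
    have h1 := Lg_div_le hr u
    have h2 := sq_nonneg ‖TT f (u * I)‖
    nlinarith

lemma norm_dil {r : ℝ} {f : ℝ → ℂ} (hr : 0 < r) (v : ℝ) :
    Lg v * ‖TT (fun x => f (x / r)) (v * I)‖ ^ 2 =
      (fun u : ℝ => r ^ 2 * (Lg (u / r) * ‖TT f (u * I)‖ ^ 2)) (r * v) := by
  simp only
  rw [TT_dil f hr, norm_mul, Complex.norm_real, Real.norm_eq_abs, abs_of_pos hr, mul_div_cancel_left₀ _ hr.ne']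
  push_cast
  rw [← mul_assoc]
  ring

lemma Hd_dil {r a : ℝ} {f : ℝ → ℂ} (hr : 1 / 2 ≤ r) (hf : Hd a f) : Hd (r * a) (fun x => f (x / r)) := by
  have h0 : (0 : ℝ) < r := by linarith
  refine ⟨Fa_dil h0 hf.1, ?_⟩
  have h1 := ((int_div hr hf).const_mul (r ^ 2)).comp_mul_left' h0.ne'
  refine h1.congr (Eventually.of_forall fun v => ?_)
  simp only
  rw [norm_dil h0]

lemma LL_dil {r a : ℝ} {f : ℝ → ℂ} (hr : 1 / 2 ≤ r) (_hf : Hd a f) :
    LL (fun x => f (x / r)) = r * ∫ u : ℝ, Lg (u / r) * ‖TT f (u * I)‖ ^ 2 := by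
  have h0 : (0 : ℝ) < r := by linarith
  unfold LL
  have h1 : ∫ v : ℝ, Lg v * ‖TT (fun x => f (x / r)) (v * I)‖ ^ 2 =
      ∫ v : ℝ, (fun u : ℝ => r ^ 2 * (Lg (u / r) * ‖TT f (u * I)‖ ^ 2)) (r * v) :=
    integral_congr_ae (Eventually.of_forall fun v => norm_dil h0 v)
  rw [h1, Measure.integral_comp_mul_left (fun u : ℝ => r ^ 2 * (Lg (u / r) * ‖TT f (u * I)‖ ^ 2)) r,
    integral_const_mul, abs_of_pos (inv_pos.2 h0), smul_eq_mul]
  generalize (∫ u : ℝ, Lg (u / r) * ‖TT f (u * I)‖ ^ 2) = J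
  field_simp

/-- a sequence of dilations -/
lemma dil_conv {a : ℝ} {f : ℝ → ℂ} (hf : Hd a f) {ε : ℝ} (hε : 0 < ε) :
    ∃ r : ℝ, 1 / 2 ≤ r ∧ r < 1 ∧ LL (fun x => f x - f (x / r)) ≤ ε := by
  set r : ℕ → ℝ := fun n => 1 - 1 / ((n : ℝ) + 2) with hr
  have hlt : ∀ n, r n < 1 := by
    intro n
    have : 0 < 1 / ((n : ℝ) + 2) := by positivity
    simp only [hr]
    linarith
  have hge : ∀ n, 1 / 2 ≤ r n := by
    intro n
    have h2 : (0 : ℝ) ≤ n := Nat.cast_nonneg n
    have : 1 / ((n : ℝ) + 2) ≤ 1 / 2 := by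
      apply one_div_le_one_div_of_le <;> linarith
    simp only [hr]
    linarith
  have hlim : Tendsto r atTop (𝓝 1) := by
    have h1 : Tendsto (fun n : ℕ => 1 / ((n : ℝ) + 2)) atTop (𝓝 0) := by
      have h2 : Tendsto (fun n : ℕ => ((n : ℝ) + 2)) atTop atTop :=
        tendsto_atTop_add_const_right _ _ tendsto_natCast_atTop_atTop
      refine (tendsto_inv_atTop_zero.comp h2).congr fun n => ?_
      rw [one_div]
      rfl
    have h3 := (tendsto_const_nhds (x := (1 : ℝ))).sub h1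
    rwa [sub_zero] at h3
  have hpos : ∀ n, 0 < r n := fun n => lt_of_lt_of_le (by norm_num) (hge n)
  have key := mean_conv Lg (fun v => (Lg_pos v).le) (fun n v => TT (fun x => f (x / r n)) (v * I)) (fun v => TT f (v * I))
    (fun v => by
      have hc : Continuous (TT f) := (differentiable_TT hf.1).continuous
      have h1 : Tendsto (fun n => (r n : ℂ)) atTop (𝓝 ((1 : ℝ) : ℂ)) := (Complex.continuous_ofReal.tendsto 1).comp hlim
      have h2 : Tendsto (fun n => (r n : ℂ) * (v * I)) atTop (𝓝 (((1 : ℝ) : ℂ) * (v * I))) := h1.mul_const _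
      have h3 := h1.mul ((hc.tendsto _).comp h2)
      simp only [Complex.ofReal_one, one_mul] at h3
      refine h3.congr fun n => ?_
      simp only [Function.comp]
      rw [TT_dil f (hpos n)])
    Lg_cont (fun n => TT_line_cont (Fa_dil (hpos n) hf.1)) (TT_line_cont hf.1)
    (fun n => (Hd_dil (hge n) hf).2) hf.2
    (by
      have h1 : Tendsto (fun n => ∫ u : ℝ, Lg (u / r n) * ‖TT f (u * I)‖ ^ 2) atTop
          (𝓝 (∫ u : ℝ, Lg u * ‖TT f (u * I)‖ ^ 2)) := by
        refine tendsto_integral_of_dominated_convergence (fun u => 2 * (Lg u * ‖TT f (u * I)‖ ^ 2))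
          (fun n => (int_div (hge n) hf).aestronglyMeasurable) (hf.2.const_mul 2)
          (fun n => Eventually.of_forall fun u => ?_) (Eventually.of_forall fun u => ?_)
        · rw [Real.norm_eq_abs, abs_of_nonneg (mul_nonneg (Lg_pos _).le (sq_nonneg _))]
          have h1 := Lg_div_le (hge n) u
          have h2 := sq_nonneg ‖TT f (u * I)‖
          nlinarith
        · have h2 : Tendsto (fun n => u / r n) atTop (𝓝 (u / 1)) := tendsto_const_nhds.div hlim one_ne_zero
          rw [div_one] at h2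
          exact ((Lg_cont.tendsto u).comp h2).mul_const _
      have h3 := hlim.mul h1
      rw [one_mul] at h3
      refine h3.congr fun n => ?_
      rw [← LL_dil (hge n) hf]
      rfl)
  obtain ⟨n, hn⟩ := (key.eventually (gt_mem_nhds hε)).exists
  refine ⟨r n, hge n, hlt n, le_trans (le_of_eq ?_) hn.le⟩
  unfold LL
  refine integral_congr_ae (Eventually.of_forall fun v => ?_)
  simp only
  have hF1 : Fa a (fun x => f (x / r n)) := by
    refine ⟨(Fa_dil (hpos n) hf.1).1, fun x hx => hf.1.2 _ ?_⟩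
    rw [abs_div, abs_of_pos (hpos n), lt_div_iff₀ (hpos n)]
    nlinarith [hlt n, abs_nonneg x, hpos n]
  rw [TT_sub hf.1 hF1]

/-- the transform of a convolution -/
lemma TT_conv {b : ℝ} {f k : ℝ → ℂ} (hk : Continuous k) (hks : HasCompactSupport k) (hf : Fa b f) (w : ℂ) :
    TT (k ⋆[ContinuousLinearMap.mul ℝ ℂ, volume] f) w = TT k w * TT f w := by
  have hfe : Integrable (fun t : ℝ => f t * cexp (w * t)) := hf.integrable_mul (by fun_prop)
  have hke : Integrable (fun t : ℝ => k t * cexp (w * t)) :=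
    (hk.mul (by fun_prop)).integrable_of_hasCompactSupport hks.mul_right
  have h1 := integral_convolution (ContinuousLinearMap.mul ℝ ℂ) hke hfe
  rw [ContinuousLinearMap.mul_apply'] at h1
  unfold TT
  rw [← h1]
  refine integral_congr_ae (Eventually.of_forall fun x => ?_)
  simp only
  rw [convolution_def, convolution_def, ← integral_mul_const]
  refine integral_congr_ae (Eventually.of_forall fun t => ?_)
  simp only [ContinuousLinearMap.mul_apply']
  have e : cexp (w * (x : ℂ)) = cexp (w * t) * cexp (w * ((x - t : ℝ) : ℂ)) := by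
    rw [← Complex.exp_add]; congr 1; push_cast; ring
  rw [e]
  ring

/-- mollification -/
lemma moll {b : ℝ} {f : ℝ → ℂ} (hf : Hd b f) {δ ε : ℝ} (hδ : 0 < δ) (hε : 0 < ε) :
    ∃ g : ℝ → ℂ, ContDiff ℝ 3 g ∧ (∀ x, b + δ ≤ |x| → g x = 0) ∧ Hd (b + δ) g ∧ LL (fun x => f x - g x) ≤ ε := by
  set d : ℕ → ℝ := fun n => δ / ((n : ℝ) + 2) with hd
  have hd0 : ∀ n, 0 < d n := fun n => by simp only [hd]; positivity
  have hdδ : ∀ n, d n < δ := fun n => by
    simp only [hd]
    rw [div_lt_iff₀ (by positivity)]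
    have : (0 : ℝ) ≤ n := Nat.cast_nonneg n
    nlinarith
  have hdl : Tendsto d atTop (𝓝 0) := by
    have h2 : Tendsto (fun n : ℕ => ((n : ℝ) + 2)) atTop atTop :=
      tendsto_atTop_add_const_right _ _ tendsto_natCast_atTop_atTop
    have h3 := (tendsto_inv_atTop_zero.comp h2).const_mul δ
    rw [mul_zero] at h3
    refine h3.congr fun n => ?_
    simp only [hd, Function.comp, div_eq_mul_inv]
  set φ : ℕ → ContDiffBump (0 : ℝ) := fun n =>
    { rIn := d n / 2, rOut := d n, rIn_pos := half_pos (hd0 n), rIn_lt_rOut := half_lt_self (hd0 n) } with hφ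
  set ρ : ℕ → ℝ → ℝ := fun n => (φ n).normed volume with hρ
  have hρ0 : ∀ n x, 0 ≤ ρ n x := fun n x => (φ n).nonneg_normed x
  have hρ1 : ∀ n, ∫ x, ρ n x = 1 := fun n => (φ n).integral_normed
  have hρi : ∀ n, Integrable (ρ n) := fun n => (φ n).integrable_normed
  have hρs : ∀ n x, d n ≤ |x| → ρ n x = 0 := by
    intro n x hx
    by_contra h
    have h1 : x ∈ Function.support ((φ n).normed volume) := h
    rw [(φ n).support_normed_eq, Metric.mem_ball, dist_zero_right, Real.norm_eq_abs] at h1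
    exact absurd h1 (not_lt.2 hx)
  set ψ : ℕ → ℝ → ℂ := fun n x => (ρ n x : ℂ) with hψ
  have hψc : ∀ n, ContDiff ℝ (3 : ℕ∞) (ψ n) := fun n => Complex.ofRealCLM.contDiff.comp (φ n).contDiff_normed
  have hψs : ∀ n, HasCompactSupport (ψ n) := fun n =>
    ((φ n).hasCompactSupport_normed (μ := volume)).comp_left Complex.ofReal_zero
  have hψk : ∀ n, Continuous (ψ n) := fun n => (hψc n).continuous
  set g : ℕ → ℝ → ℂ := fun n => (ψ n ⋆[ContinuousLinearMap.mul ℝ ℂ, volume] f) with hg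
  have hgc : ∀ n, ContDiff ℝ (3 : ℕ∞) (g n) := fun n =>
    (hψs n).contDiff_convolution_left _ (hψc n) hf.1.integrable.locallyIntegrable
  have hgT : ∀ n w, TT (g n) w = TT (ψ n) w * TT f w := fun n w => TT_conv (hψk n) (hψs n) hf.1 w
  have hg0 : ∀ n x, b + δ ≤ |x| → g n x = 0 := by
    intro n x hx
    simp only [hg]
    rw [convolution_def]
    have : (fun t : ℝ => (ContinuousLinearMap.mul ℝ ℂ) (ψ n t) (f (x - t))) = fun _ => 0 := by
      funext t
      rw [ContinuousLinearMap.mul_apply']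
      by_cases ht : d n ≤ |t|
      · simp only [hψ]
        rw [hρs n t ht, Complex.ofReal_zero, zero_mul]
      · rw [not_le] at ht
        have h1 : b < |x - t| := by
          have := abs_sub_abs_le_abs_sub x t
          have := hdδ n
          linarith
        rw [hf.1.2 _ h1, mul_zero]
    rw [this, integral_zero]
  -- bounds for the transform of the bump functions
  have hψb : ∀ n (v : ℝ), ‖TT (ψ n) (v * I)‖ ≤ 1 := by
    intro n v
    rw [← hρ1 n]
    unfold TT
    refine norm_integral_le_of_norm_le (hρi n) (Eventually.of_forall fun x => ?_)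
    rw [norm_mul]
    have e : ‖cexp (v * I * x)‖ = 1 := by
      rw [Complex.norm_exp]
      have : ((v : ℂ) * I * x).re = 0 := by simp
      rw [this, Real.exp_zero]
    rw [e, mul_one]
    simp only [hψ]
    rw [Complex.norm_real, Real.norm_eq_abs, abs_of_nonneg (hρ0 n x)]
  have hψl : ∀ n (v : ℝ), ‖1 - TT (ψ n) (v * I)‖ ≤ |v| * d n := by
    intro n v
    have i1 : Integrable (ψ n) := (hψk n).integrable_of_hasCompactSupport (hψs n)
    have i2 : Integrable (fun x : ℝ => ψ n x * cexp (v * I * x)) :=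
      ((hψk n).mul (by fun_prop)).integrable_of_hasCompactSupport (hψs n).mul_right
    have e1 : (1 : ℂ) = ∫ x, ψ n x := by
      simp only [hψ]
      rw [integral_complex_ofReal, hρ1 n, Complex.ofReal_one]
    have e2 : 1 - TT (ψ n) (v * I) = ∫ x, (ψ n x - ψ n x * cexp (v * I * x)) := by
      rw [integral_sub i1 i2, ← e1]
      rfl
    have e3 : |v| * d n = ∫ x, ρ n x * (|v| * d n) := by
      rw [integral_mul_const, hρ1 n, one_mul]
    rw [e2, e3]
    refine norm_integral_le_of_norm_le ((hρi n).mul_const _) (Eventually.of_forall fun x => ?_)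
    by_cases hx : d n ≤ |x|
    · simp only [hψ]
      rw [hρs n x hx]
      simp
    · rw [not_le] at hx
      have e4 : ψ n x - ψ n x * cexp (v * I * x) = -(ψ n x * (cexp (I * ((v * x : ℝ) : ℂ)) - 1)) := by
        have : (v : ℂ) * I * x = I * ((v * x : ℝ) : ℂ) := by push_cast; ring
        rw [this]
        ring
      rw [e4, norm_neg, norm_mul]
      have h1 : ‖cexp (I * ((v * x : ℝ) : ℂ)) - 1‖ ≤ |v| * d n := by
        refine Real.norm_exp_I_mul_ofReal_sub_one_le.trans ?_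
        rw [Real.norm_eq_abs, abs_mul]
        exact mul_le_mul_of_nonneg_left hx.le (abs_nonneg _)
      have h2 : ‖ψ n x‖ = ρ n x := by
        simp only [hψ]
        rw [Complex.norm_real, Real.norm_eq_abs, abs_of_nonneg (hρ0 n x)]
      rw [h2]
      exact mul_le_mul_of_nonneg_left h1 (hρ0 n x)
  have hgm : ∀ n, Fa (b + δ) (g n) := by
    intro n
    have hs : HasCompactSupport (g n) := by
      refine HasCompactSupport.intro (isCompact_Icc (a := -(b + δ)) (b := b + δ)) fun x hx => hg0 n x ?_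
      rw [Set.mem_Icc, ← abs_le, not_le] at hx
      exact hx.le
    exact ⟨(hgc n).continuous.memLp_of_hasCompactSupport hs, fun x hx => hg0 n x hx.le⟩
  have hgH : ∀ n, Hd (b + δ) (g n) := by
    intro n
    refine ⟨hgm n, hf.2.mono' (LL_cont (hgm n)).aestronglyMeasurable (Eventually.of_forall fun v => ?_)⟩
    rw [Real.norm_eq_abs, abs_of_nonneg (mul_nonneg (Lg_pos v).le (sq_nonneg _)), hgT, norm_mul]
    refine mul_le_mul_of_nonneg_left ?_ (Lg_pos v).le
    have h1 := hψb n v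
    have h2 := norm_nonneg (TT (ψ n) (v * I))
    have h3 := norm_nonneg (TT f (v * I))
    refine pow_le_pow_left₀ (by positivity) ?_ 2
    nlinarith
  have hfb : Fa (b + δ) f := hf.1.mono (by linarith)
  have hlim : Tendsto (fun n => ∫ v : ℝ, Lg v * ‖TT (fun x => f x - g n x) (v * I)‖ ^ 2) atTop
      (𝓝 (∫ _v : ℝ, (0 : ℝ))) := by
    refine tendsto_integral_of_dominated_convergence (fun v => 4 * (Lg v * ‖TT f (v * I)‖ ^ 2))
      (fun n => (LL_cont (hfb.sub (hgm n))).aestronglyMeasurable) (hf.2.const_mul 4)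
      (fun n => Eventually.of_forall fun v => ?_) (Eventually.of_forall fun v => ?_)
    · rw [Real.norm_eq_abs, abs_of_nonneg (mul_nonneg (Lg_pos v).le (sq_nonneg _)), TT_sub hfb (hgm n), hgT]
      have e : TT f (v * I) - TT (ψ n) (v * I) * TT f (v * I) = (1 - TT (ψ n) (v * I)) * TT f (v * I) := by ring
      rw [e, norm_mul, mul_pow]
      have h1 : ‖1 - TT (ψ n) (v * I)‖ ≤ 2 := by
        refine (norm_sub_le _ _).trans ?_
        rw [norm_one]
        linarith [hψb n v]
      have h2 : ‖1 - TT (ψ n) (v * I)‖ ^ 2 ≤ 4 := by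
        nlinarith [norm_nonneg (1 - TT (ψ n) (v * I))]
      have h3 := Lg_pos v
      have h4 := sq_nonneg ‖TT f (v * I)‖
      have h5 : 0 ≤ Lg v * ‖TT f (v * I)‖ ^ 2 := mul_nonneg h3.le h4
      nlinarith
    · have h1 : Tendsto (fun n => ‖1 - TT (ψ n) (v * I)‖) atTop (𝓝 0) := by
        refine squeeze_zero (fun n => norm_nonneg _) (fun n => hψl n v) ?_
        have := hdl.const_mul |v|
        rwa [mul_zero] at this
      have h2 := ((h1.pow 2).mul_const (‖TT f (v * I)‖ ^ 2)).const_mul (Lg v)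
      have e0 : Lg v * ((0 : ℝ) ^ 2 * ‖TT f (v * I)‖ ^ 2) = 0 := by ring
      rw [e0] at h2
      refine h2.congr fun n => ?_
      rw [TT_sub hfb (hgm n), hgT]
      have e : TT f (v * I) - TT (ψ n) (v * I) * TT f (v * I) = (1 - TT (ψ n) (v * I)) * TT f (v * I) := by ring
      rw [e, norm_mul, mul_pow]
  rw [integral_zero] at hlim
  obtain ⟨n, hn⟩ := (hlim.eventually (gt_mem_nhds hε)).exists
  exact ⟨g n, hgc n, hg0 n, hgH n, hn.le⟩

theorem den : Pool.Agent.Q240.EX.S_Den := by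
  intro a f ha hf ε hε
  obtain ⟨r, hr1, hr2, hr⟩ := dil_conv hf (ε := ε / 4) (by positivity)
  have h1 := Hd_dil hr1 hf
  have hra : r * a < a := by nlinarith
  obtain ⟨g, g1, g2, g3, g4⟩ := moll h1 (δ := (a - r * a) / 2) (ε := ε / 4) (by linarith) (by positivity)
  have hb : r * a + (a - r * a) / 2 < a := by linarith
  refine ⟨g, g1, ⟨r * a + (a - r * a) / 2, ?_, hb, g2⟩, ?_⟩
  · have : 0 < r * a := mul_pos (by linarith) ha
    linarith
  · have k1 : Hd a (fun x => f (x / r)) := ⟨h1.1.mono hra.le, h1.2⟩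
    have k2 : Hd a g := ⟨g3.1.mono hb.le, g3.2⟩
    have h2 := LL_add_le (hf.sub k1) (k1.sub k2)
    have e : (fun x => (f x - f (x / r)) + (f (x / r) - g x)) = fun x => f x - g x := by
      funext x
      ring
    rw [e] at h2
    linarith

end Pool.Agent.Q129.EX
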